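import Pool.Agent.Helper29.SH.Goals

/-!
# Packet SH-LIFT (project SH, MP_0a002a_al)
-/

set_option autoImplicit false

namespace Pool.Agent.Helper99.SH

open Subgroup Pool.H83Shunkov Pool.Agent.Helper29.SH

theorem t_LIFT : S_BIJ → S_LIFT := by
  intro bij G _ a N F _ hloc hfpf f hf hN
  obtain ⟨K, hKF, hKfin, hKinv, hfK⟩ := hloc f hf
  have hinv : Inv a (K ⊓ N) := by
    intro k hk
    have hk' := Subgroup.mem_inf.1 hk
    refine Subgroup.mem_inf.2 ⟨hKinv k hk'.1, ?_⟩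
    have := (inferInstance : N.Normal).conj_mem k hk'.2 a⁻¹
    simpa using this
  have hfin : ((K ⊓ N : Subgroup G) : Set G).Finite :=
    hKfin.subset fun x hx => (Subgroup.mem_inf.1 hx).1
  have hfp : FPF a (K ⊓ N) := fun k hk h => hfpf k (hKF (Subgroup.mem_inf.1 hk).1) h
  have h1 : f⁻¹ * (a⁻¹ * f * a * f⁻¹) * f ∈ N := by
    have := (inferInstance : N.Normal).conj_mem _ hN f⁻¹
    simpa using this
  have h2 : a⁻¹ * f⁻¹ * a * f ∈ K ⊓ N := by
    refine Subgroup.mem_inf.2 ⟨?_, ?_⟩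
    · exact K.mul_mem (hKinv _ (K.inv_mem hfK)) hfK
    · have h3 := N.inv_mem h1
      have h4 : (f⁻¹ * (a⁻¹ * f * a * f⁻¹) * f)⁻¹ = a⁻¹ * f⁻¹ * a * f := by group
      rwa [h4] at h3
  obtain ⟨k, hk, hkeq⟩ := bij G a (K ⊓ N) hfin hinv hfp _ h2
  have hk' := Subgroup.mem_inf.1 hk
  have h5 : f⁻¹ * a * f = k⁻¹ * a * k := by
    have := congrArg (fun y => a * y) hkeq
    simpa [mul_assoc] using this
  have h6 : (f * k⁻¹) * a = a * (f * k⁻¹) := by
    calc (f * k⁻¹) * a = f * (k⁻¹ * a * k) * k⁻¹ := by group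
      _ = f * (f⁻¹ * a * f) * k⁻¹ := by rw [h5]
      _ = a * (f * k⁻¹) := by group
  have h7 : f * k⁻¹ = 1 := hfpf _ (F.mul_mem hf (F.inv_mem (hKF hk'.1))) h6
  have h8 : f = k := mul_inv_eq_one.1 h7
  rw [h8]
  exact hk'.2

end Pool.Agent.Helper99.SH
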